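import Mathlib

/-!
# Basic calculus for the E(3) project (MP_9e47d4_ag, inside F(d) version)

A form `A dx + B dy` on the plane is a pair of polynomials `A B : Po R` (`x = X 0`, `y = X 1`).
-/

open MvPolynomial

namespace Pool.Agent.CF

/-- polynomials in two variables `x = X 0`, `y = X 1` -/
abbrev Po (R : Type*) [CommRing R] := MvPolynomial (Fin 2) R

section defs
variable {R : Type*} [CommRing R]

/-- `ω ∧ dH` for `ω = A dx + B dy` -/
noncomputable def XX (A B H : Po R) : Po R := A * pderiv 1 H - B * pderiv 0 H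

/-- `p` has order at least `n` at the origin -/
def Ord (n : ℕ) (p : Po R) : Prop := ∀ m : Fin 2 →₀ ℕ, m 0 + m 1 < n → coeff m p = 0

/-- `H` is a first integral of `A dx + B dy` up to order `n`, with nonzero quadratic part -/
def FI (n : ℕ) (A B H : Po R) : Prop :=
  Ord 2 H ∧ (∃ m : Fin 2 →₀ ℕ, m 0 + m 1 = 2 ∧ coeff m H ≠ 0) ∧ Ord n (XX A B H)

/-- all coefficients of `p` lie in the ideal `J` -/
def CI (J : Ideal R) (p : Po R) : Prop := ∀ m, coeff m p ∈ J

/-- translation `p(x + c, y + d)` -/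
noncomputable def sh (c d : R) (p : Po R) : Po R := aeval ![X 0 + C c, X 1 + C d] p

/-- weighted filtration: `p` has order at least `n` when `Z = X 0` has weight 2, `W = X 1` has
weight 1 and the constant `κ` has weight 1 -/
def Fil (κ : R) (n : ℕ) (p : Po R) : Prop :=
  ∀ m : Fin 2 →₀ ℕ, κ ^ (n - (2 * m 0 + m 1)) ∣ coeff m p

/-- weighted order at least `n` (`X 0` has weight 2, `X 1` has weight 1) -/
def Wt (n : ℕ) (p : Po R) : Prop := ∀ m : Fin 2 →₀ ℕ, 2 * m 0 + m 1 < n → coeff m p = 0

end defs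

section ord
variable {R : Type*} [CommRing R] {n k : ℕ} {p q : Po R}

lemma deg2 (m : Fin 2 →₀ ℕ) : m.degree = m 0 + m 1 := by
  rw [Finsupp.degree_eq_sum, Fin.sum_univ_two]

lemma ord_iff_mem : Ord n p ↔ p ∈ idealOfVars (Fin 2) R ^ n := by
  rw [mem_pow_idealOfVars_iff']
  simp only [deg2]
  rfl

lemma Ord.zero : Ord n (0 : Po R) := fun m _ => coeff_zero m

lemma ord_zero (p : Po R) : Ord 0 p := fun _ hm => absurd hm (Nat.not_lt_zero _)

lemma Ord.mono (h : Ord n p) (hk : k ≤ n) : Ord k p := fun m hm => h m (lt_of_lt_of_le hm hk)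

lemma Ord.add (hp : Ord n p) (hq : Ord n q) : Ord n (p + q) := fun m hm => by
  rw [coeff_add, hp m hm, hq m hm, add_zero]

lemma Ord.neg (hp : Ord n p) : Ord n (-p) := fun m hm => by
  rw [coeff_neg, hp m hm, neg_zero]

lemma Ord.sub (hp : Ord n p) (hq : Ord n q) : Ord n (p - q) := fun m hm => by
  rw [coeff_sub, hp m hm, hq m hm, sub_zero]

lemma Ord.mul (hp : Ord n p) (hq : Ord k q) : Ord (n + k) (p * q) := by
  rw [ord_iff_mem] at *
  rw [pow_add]
  exact Ideal.mul_mem_mul hp hq

lemma Ord.mul_left (r : Po R) (hp : Ord n p) : Ord n (r * p) := by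
  rw [ord_iff_mem] at *
  exact Ideal.mul_mem_left _ _ hp

lemma Ord.mul_right (r : Po R) (hp : Ord n p) : Ord n (p * r) := by
  rw [ord_iff_mem] at *
  exact Ideal.mul_mem_right _ _ hp

lemma Ord.pow (hp : Ord n p) (k : ℕ) : Ord (n * k) (p ^ k) := by
  rw [ord_iff_mem] at *
  rw [pow_mul]
  exact Ideal.pow_mem_pow hp k

lemma Ord.sum {ι : Type*} (s : Finset ι) (f : ι → Po R) (h : ∀ i ∈ s, Ord n (f i)) :
    Ord n (∑ i ∈ s, f i) := by
  rw [ord_iff_mem]
  exact Ideal.sum_mem _ fun i hi => ord_iff_mem.1 (h i hi)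

lemma ord_one_iff : Ord 1 p ↔ coeff 0 p = 0 := by
  constructor
  · intro h
    exact h 0 (by simp)
  · intro h m hm
    have h0 : m 0 = 0 := by omega
    have h1 : m 1 = 0 := by omega
    have : m = 0 := by
      ext i; fin_cases i <;> simp [h0, h1]
    rw [this, h]

lemma ord_X (i : Fin 2) : Ord 1 (X i : Po R) := by
  rw [ord_one_iff]; simp

lemma coeff_pderiv (i : Fin 2) (p : Po R) (m : Fin 2 →₀ ℕ) :
    coeff m (pderiv i p) = coeff (m + Finsupp.single i 1) p * (m i + 1) := by
  classical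
  induction p using MvPolynomial.induction_on' with
  | monomial u a =>
    rw [pderiv_monomial, coeff_monomial, coeff_monomial]
    by_cases h : u = m + Finsupp.single i 1
    · subst h
      simp
    · rw [if_neg h, zero_mul]
      split_ifs with h2
      · have hu : u i = 0 := by
          by_contra hu
          apply h
          rw [← h2]
          ext j
          by_cases hj : j = i
          · subst hj
            simp only [Finsupp.coe_add, Finsupp.coe_tsub, Pi.add_apply, Pi.sub_apply,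
              Finsupp.single_eq_same]
            omega
          · have : (Finsupp.single i 1 : Fin 2 →₀ ℕ) j = 0 := by
              rw [Finsupp.single_apply, if_neg (fun h => hj h.symm)]
            simp only [Finsupp.coe_add, Finsupp.coe_tsub, Pi.add_apply, Pi.sub_apply, this]
            omega
        rw [hu]; simp
      · rfl
  | add p q hp hq => rw [map_add, coeff_add, hp, hq, coeff_add]; ring

lemma Ord.pderiv (hp : Ord (n + 1) p) (i : Fin 2) : Ord n (MvPolynomial.pderiv i p) := by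
  intro m hm
  rw [coeff_pderiv, hp, zero_mul]
  fin_cases i <;> simp [Finsupp.single_apply] <;> omega

lemma Ord.pderiv' (hp : Ord n p) (i : Fin 2) : Ord (n - 1) (MvPolynomial.pderiv i p) := by
  cases n with
  | zero => exact ord_zero _
  | succ n => exact hp.pderiv i

lemma Ord.map {S : Type*} [CommRing S] (φ : R →+* S) (hp : Ord n p) :
    Ord n (MvPolynomial.map φ p) := fun m hm => by rw [coeff_map, hp m hm, map_zero]

lemma Ord.of_map {S : Type*} [CommRing S] (φ : R →+* S) (hφ : Function.Injective φ)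
    (hp : Ord n (MvPolynomial.map φ p)) : Ord n p := fun m hm => by
  have := hp m hm
  rw [coeff_map] at this
  exact hφ (by rw [this, map_zero])

lemma Ord.aeval {g : Fin 2 → Po R} (hg : ∀ i, Ord 1 (g i)) (hp : Ord n p) :
    Ord n (MvPolynomial.aeval g p) := by
  rw [ord_iff_mem] at *
  have h1 : (idealOfVars (Fin 2) R ^ n).map (MvPolynomial.aeval g).toRingHom ≤
      idealOfVars (Fin 2) R ^ n := by
    rw [Ideal.map_pow]
    refine Ideal.pow_right_mono ?_ n
    rw [idealOfVars, Ideal.map_span, Ideal.span_le]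
    rintro _ ⟨_, ⟨i, rfl⟩, rfl⟩
    have := ord_iff_mem.1 (hg i)
    rw [pow_one] at this
    simpa using this
  exact h1 (Ideal.mem_map_of_mem (MvPolynomial.aeval g).toRingHom hp)

end ord

section XX
variable {R : Type*} [CommRing R] {n k : ℕ} (A B A' B' H G : Po R)

lemma XX_add : XX A B (H + G) = XX A B H + XX A B G := by simp [XX]; ring
lemma XX_sub : XX A B (H - G) = XX A B H - XX A B G := by simp [XX]; ring
lemma XX_C (c : R) : XX A B (C c) = 0 := by simp [XX]
lemma XX_C_mul (c : R) : XX A B (C c * H) = C c * XX A B H := by simp [XX]; ring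
lemma XX_mul : XX A B (H * G) = H * XX A B G + G * XX A B H := by simp [XX]; ring
lemma XX_sub_left : XX (A - A') (B - B') H = XX A B H - XX A' B' H := by simp [XX]; ring
lemma XX_add_left : XX (A + A') (B + B') H = XX A B H + XX A' B' H := by simp [XX]; ring
lemma XX_mul_left (m : Po R) : XX (m * A) (m * B) H = m * XX A B H := by simp [XX]; ring

lemma XX_zero : XX A B 0 = 0 := by simp [XX]

lemma XX_sum {ι : Type*} (s : Finset ι) (f : ι → Po R) :
    XX A B (∑ i ∈ s, f i) = ∑ i ∈ s, XX A B (f i) := by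
  simp only [XX, map_sum, Finset.mul_sum, Finset.sum_sub_distrib]

lemma XX_pow (j : ℕ) : XX A B (H ^ j) = (j : Po R) * H ^ (j - 1) * XX A B H := by
  simp only [XX, Derivation.leibniz_pow, smul_eq_mul, nsmul_eq_mul]
  ring

lemma map_XX {S : Type*} [CommRing S] (φ : R →+* S) :
    MvPolynomial.map φ (XX A B H) =
      XX (MvPolynomial.map φ A) (MvPolynomial.map φ B) (MvPolynomial.map φ H) := by
  simp [XX, pderiv_map]

lemma ord_XX (hH : Ord (n + 1) H) : Ord n (XX A B H) :=
  ((hH.pderiv 1).mul_left A).sub ((hH.pderiv 0).mul_left B)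

lemma ord_XX' (hA : Ord 1 A) (hB : Ord 1 B) (hH : Ord n H) : Ord n (XX A B H) := by
  cases n with
  | zero => exact ord_zero _
  | succ n =>
    have h1 := hA.mul (hH.pderiv 1)
    have h2 := hB.mul (hH.pderiv 0)
    rw [add_comm] at h1 h2
    exact h1.sub h2

lemma ord_XX_pow {j : ℕ} (h : Ord n (XX A B H)) : Ord n (XX A B (H ^ j)) := by
  rw [XX_pow]
  exact h.mul_left _

end XX

section CI
variable {R : Type*} [CommRing R] {J I : Ideal R} {p q : Po R}

lemma ci_iff : CI J p ↔ p ∈ J.map (C : R →+* Po R) := by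
  rw [mem_map_C_iff]; rfl

lemma CI.zero : CI J (0 : Po R) := fun m => by rw [coeff_zero]; exact J.zero_mem
lemma CI.add (hp : CI J p) (hq : CI J q) : CI J (p + q) := fun m => by
  rw [coeff_add]; exact J.add_mem (hp m) (hq m)
lemma CI.sub (hp : CI J p) (hq : CI J q) : CI J (p - q) := fun m => by
  rw [coeff_sub]; exact J.sub_mem (hp m) (hq m)
lemma CI.neg (hp : CI J p) : CI J (-p) := fun m => by
  rw [coeff_neg]; exact J.neg_mem (hp m)
lemma CI.mono (hp : CI J p) (h : J ≤ I) : CI I p := fun m => h (hp m)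
lemma CI.mul_left (r : Po R) (hp : CI J p) : CI J (r * p) := by
  rw [ci_iff] at *; exact Ideal.mul_mem_left _ _ hp
lemma CI.mul_right (r : Po R) (hp : CI J p) : CI J (p * r) := by
  rw [ci_iff] at *; exact Ideal.mul_mem_right _ _ hp
lemma CI.mul (hp : CI J p) (hq : CI I q) : CI (J * I) (p * q) := by
  rw [ci_iff] at *; rw [Ideal.map_mul]; exact Ideal.mul_mem_mul hp hq
lemma CI.sum {ι : Type*} (s : Finset ι) (f : ι → Po R) (h : ∀ i ∈ s, CI J (f i)) :
    CI J (∑ i ∈ s, f i) := by
  rw [ci_iff]; exact Ideal.sum_mem _ fun i hi => ci_iff.1 (h i hi)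
lemma ci_C {c : R} (h : c ∈ J) : CI J (C c : Po R) := by
  rw [ci_iff]; exact Ideal.mem_map_of_mem _ h
lemma CI.pderiv (hp : CI J p) (i : Fin 2) : CI J (MvPolynomial.pderiv i p) := fun m => by
  rw [coeff_pderiv]; exact J.mul_mem_right _ (hp _)

lemma ci_XX_right (A B : Po R) {H : Po R} (h : CI J H) : CI J (XX A B H) :=
  ((h.pderiv 1).mul_left A).sub ((h.pderiv 0).mul_left B)
lemma ci_XX_left {A B : Po R} (H : Po R) (hA : CI J A) (hB : CI J B) : CI J (XX A B H) :=
  (hA.mul_right _).sub (hB.mul_right _)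
lemma ci_XX {A B H : Po R} (hA : CI J A) (hB : CI J B) (hH : CI I H) :
    CI (J * I) (XX A B H) := (hA.mul (hH.pderiv 1)).sub (hB.mul (hH.pderiv 0))

lemma ci_ker_iff {S : Type*} [CommRing S] (φ : R →+* S) :
    CI (RingHom.ker φ) p ↔ MvPolynomial.map φ p = 0 := by
  constructor
  · intro h
    ext m
    rw [coeff_map, coeff_zero]
    exact h m
  · intro h m
    rw [RingHom.mem_ker, ← coeff_map, h, coeff_zero]

end CI

section Fil
variable {R : Type*} [CommRing R] {κ : R} {n k : ℕ} {p q : Po R}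

lemma Fil.zero : Fil κ n (0 : Po R) := fun m => by rw [coeff_zero]; exact dvd_zero _
lemma fil_zero (κ : R) (p : Po R) : Fil κ 0 p := fun m => by simp
lemma Fil.mono (h : Fil κ n p) (hk : k ≤ n) : Fil κ k p := fun m =>
  (pow_dvd_pow κ (Nat.sub_le_sub_right hk _)).trans (h m)
lemma Fil.add (hp : Fil κ n p) (hq : Fil κ n q) : Fil κ n (p + q) := fun m => by
  rw [coeff_add]; exact dvd_add (hp m) (hq m)
lemma Fil.sub (hp : Fil κ n p) (hq : Fil κ n q) : Fil κ n (p - q) := fun m => by
  rw [coeff_sub]; exact dvd_sub (hp m) (hq m)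
lemma Fil.neg (hp : Fil κ n p) : Fil κ n (-p) := fun m => by
  rw [coeff_neg]; exact (dvd_neg).2 (hp m)
lemma Fil.mul (hp : Fil κ n p) (hq : Fil κ k q) : Fil κ (n + k) (p * q) := fun m => by
  classical
  rw [coeff_mul]
  refine Finset.dvd_sum fun x hx => ?_
  have hx' : x.1 + x.2 = m := Finset.HasAntidiagonal.mem_antidiagonal.1 hx
  refine (pow_dvd_pow κ ?_).trans (by
    rw [pow_add]
    exact mul_dvd_mul (hp x.1) (hq x.2))
  have h0 : m 0 = x.1 0 + x.2 0 := by rw [← hx']; rfl
  have h1 : m 1 = x.1 1 + x.2 1 := by rw [← hx']; rfl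
  omega
lemma Fil.mul_left (r : Po R) (hp : Fil κ n p) : Fil κ n (r * p) := by
  have := (fil_zero κ r).mul hp
  rwa [zero_add] at this
lemma Fil.mul_right (r : Po R) (hp : Fil κ n p) : Fil κ n (p * r) := by
  have := hp.mul (fil_zero κ r)
  rwa [add_zero] at this
lemma Fil.sum {ι : Type*} (s : Finset ι) (f : ι → Po R) (h : ∀ i ∈ s, Fil κ n (f i)) :
    Fil κ n (∑ i ∈ s, f i) := by
  classical
  induction s using Finset.induction_on with
  | empty => exact Fil.zero
  | insert a s ha ih =>
    rw [Finset.sum_insert ha]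
    exact (h a (Finset.mem_insert_self a s)).add
      (ih fun i hi => h i (Finset.mem_insert_of_mem hi))
lemma fil_monomial {m : Fin 2 →₀ ℕ} {c : R} (h : κ ^ (n - (2 * m 0 + m 1)) ∣ c) :
    Fil κ n (monomial m c : Po R) := fun m' => by
  classical
  rw [coeff_monomial]
  split_ifs with h1
  · rwa [← h1]
  · exact dvd_zero _
lemma fil_C {c : R} (h : κ ^ n ∣ c) : Fil κ n (C c : Po R) := by
  have : (C c : Po R) = monomial 0 c := rfl
  rw [this]
  exact fil_monomial (by simpa using h)
lemma fil_X0 : Fil κ 2 (X 0 : Po R) := by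
  have : (X 0 : Po R) = monomial (Finsupp.single 0 1) 1 := rfl
  rw [this]
  exact fil_monomial (by simp)
lemma fil_X1 : Fil κ 1 (X 1 : Po R) := by
  have : (X 1 : Po R) = monomial (Finsupp.single 1 1) 1 := rfl
  rw [this]
  exact fil_monomial (by simp)
lemma Fil.pderiv0 (hp : Fil κ (n + 2) p) : Fil κ n (MvPolynomial.pderiv 0 p) := fun m => by
  rw [coeff_pderiv]
  refine dvd_mul_of_dvd_left ((pow_dvd_pow κ ?_).trans (hp _)) _
  simp [Finsupp.single_apply]
  omega
lemma Fil.pderiv1 (hp : Fil κ (n + 1) p) : Fil κ n (MvPolynomial.pderiv 1 p) := fun m => by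
  rw [coeff_pderiv]
  refine dvd_mul_of_dvd_left ((pow_dvd_pow κ ?_).trans (hp _)) _
  simp [Finsupp.single_apply]
  omega

end Fil

end Pool.Agent.CF
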