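import Pool.Agent.Lib_helper78.CF.Basic

/-!
# Foliations with a center: definitions

The definitions and the first lemmas are those of `MP_9e47d4_ag.CenterComponents` (helper56), copied
into a new namespace.
-/

open MvPolynomial Topology

namespace Pool.Agent.CF


/-- Polynomial `1`-forms `ω = P dy - Q dx` on `ℂ²` with `deg P, deg Q ≤ d`, stored as the pair
`(P, Q)`.  The coordinates of `ℂ²` are `x = X 0` and `y = X 1`. -/
abbrev Forms (d : ℕ) : Type :=
  restrictTotalDegree (Fin 2) ℂ d × restrictTotalDegree (Fin 2) ℂ d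

/-- The projectivization of the space of forms. -/
def FolBar (d : ℕ) : Type := Projectivization ℂ (Forms d)

/-- The class `𝓕(ω)` of a nonzero form. -/
noncomputable def cls {d : ℕ} (ω : Forms d) (h : ω ≠ 0) : FolBar d := Projectivization.mk ℂ ω h

/-- Evaluate a polynomial in the coordinates (with respect to a fixed basis) of a form. -/
noncomputable def evalAt {d : ℕ} (F : MvPolynomial (Fin (Module.finrank ℂ (Forms d))) ℂ)
    (ω : Forms d) : ℂ :=
  eval (fun i => (Module.finBasis ℂ (Forms d)).repr ω i) F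

/-- Algebraic subsets of the projective space `FolBar d`: common zero loci of homogeneous
polynomials in the coordinates. -/
def IsAlgebraicSet {d : ℕ} (Z : Set (FolBar d)) : Prop :=
  ∃ T : Set (MvPolynomial (Fin (Module.finrank ℂ (Forms d))) ℂ),
    (∀ F ∈ T, ∃ k, F.IsHomogeneous k) ∧
      Z = {x | ∀ (ω : Forms d) (h : ω ≠ 0), cls ω h = x → ∀ F ∈ T, evalAt F ω = 0}

lemma evalAt_smul {d : ℕ} {F : MvPolynomial (Fin (Module.finrank ℂ (Forms d))) ℂ} {k : ℕ}
    (hF : F.IsHomogeneous k) (c : ℂ) (ω : Forms d) : evalAt F (c • ω) = c ^ k * evalAt F ω := by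
  unfold evalAt
  simp only [map_smul, Finsupp.smul_apply, smul_eq_mul]
  rw [eval_eq, eval_eq, Finset.mul_sum]
  refine Finset.sum_congr rfl fun m hm => ?_
  have h1 : ∑ i ∈ m.support, m i = k := by
    have := hF (mem_support_iff.1 hm)
    rw [Finsupp.weight_apply, Finsupp.sum] at this
    simpa using this
  rw [Finset.prod_congr rfl fun i _ => mul_pow c _ (m i), Finset.prod_mul_distrib,
    Finset.prod_pow_eq_pow_sum, h1]
  ring

lemma exists_cls {d : ℕ} (x : FolBar d) : ∃ (ω : Forms d) (h : ω ≠ 0), cls ω h = x :=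
  ⟨Projectivization.rep x, Projectivization.rep_nonzero x, Projectivization.mk_rep x⟩

lemma cls_eq_iff {d : ℕ} {ω η : Forms d} (h : ω ≠ 0) (h' : η ≠ 0) :
    cls ω h = cls η h' ↔ ∃ c : ℂ, c ≠ 0 ∧ c • η = ω := by
  refine (Projectivization.mk_eq_mk_iff ℂ ω η h h').trans ?_
  constructor
  · rintro ⟨a, ha⟩
    exact ⟨a, a.ne_zero, ha⟩
  · rintro ⟨c, hc, h⟩
    exact ⟨Units.mk0 c hc, h⟩

/-- membership in a zero locus can be tested on one representative -/
lemma mem_locus_iff {d : ℕ} {T : Set (MvPolynomial (Fin (Module.finrank ℂ (Forms d))) ℂ)}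
    (hT : ∀ F ∈ T, ∃ k, F.IsHomogeneous k) (ω : Forms d) (h : ω ≠ 0) :
    cls ω h ∈ {x | ∀ (ω : Forms d) (h : ω ≠ 0), cls ω h = x → ∀ F ∈ T, evalAt F ω = 0} ↔
      ∀ F ∈ T, evalAt F ω = 0 := by
  constructor
  · intro H
    exact H ω h rfl
  · intro H η hη he F hF
    obtain ⟨c, hc, rfl⟩ := (cls_eq_iff hη h).1 he
    obtain ⟨k, hk⟩ := hT F hF
    rw [evalAt_smul hk, H F hF, mul_zero]

/-- The Zariski topology of the projective space `FolBar d`. -/
instance zariski (d : ℕ) : TopologicalSpace (FolBar d) :=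
  TopologicalSpace.ofClosed {Z | IsAlgebraicSet Z}
    (by
      refine ⟨{1}, fun F hF => ⟨0, ?_⟩, ?_⟩
      · rw [Set.mem_singleton_iff.1 hF]
        exact isHomogeneous_one _ _
      · ext x
        simp only [Set.mem_empty_iff_false, Set.mem_singleton_iff, forall_eq, Set.mem_ofPred_eq,
          false_iff]
        intro H
        obtain ⟨ω, h, rfl⟩ := exists_cls x
        have := H ω h rfl
        simp [evalAt] at this)
    (by
      intro A hA
      have hA' : ∀ Z : Set (FolBar d), ∃ T : Set (MvPolynomial (Fin (Module.finrank ℂ (Forms d))) ℂ),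
          Z ∈ A → (∀ F ∈ T, ∃ k, F.IsHomogeneous k) ∧
      Z = {x | ∀ (ω : Forms d) (h : ω ≠ 0), cls ω h = x → ∀ F ∈ T, evalAt F ω = 0} := by
        intro Z
        by_cases hZ : Z ∈ A
        · obtain ⟨T, hT⟩ := hA hZ
          exact ⟨T, fun _ => hT⟩
        · exact ⟨∅, fun h => absurd h hZ⟩
      choose T hTZ using hA'
      have hT := fun Z hZ => (hTZ Z hZ).1
      have hZ := fun Z hZ => (hTZ Z hZ).2
      refine ⟨⋃ Z ∈ A, T Z, ?_, ?_⟩
      · intro F hF
        simp only [Set.mem_iUnion, exists_prop] at hF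
        obtain ⟨Z, hZA, hF⟩ := hF
        exact hT Z hZA F hF
      · ext x
        simp only [Set.mem_sInter, Set.mem_iUnion, exists_prop, Set.mem_ofPred_eq]
        constructor
        · rintro H ω h rfl F ⟨Z, hZA, hF⟩
          have := H Z hZA
          rw [hZ Z hZA] at this
          exact this ω h rfl F hF
        · intro H Z hZA
          rw [hZ Z hZA]
          intro ω h he F hF
          exact H ω h he F ⟨Z, hZA, hF⟩)
    (by
      rintro A ⟨T, hT, rfl⟩ B ⟨T', hT', rfl⟩
      refine ⟨{F | ∃ G ∈ T, ∃ G' ∈ T', F = G * G'}, ?_, ?_⟩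
      · rintro F ⟨G, hG, G', hG', rfl⟩
        obtain ⟨k, hk⟩ := hT G hG
        obtain ⟨k', hk'⟩ := hT' G' hG'
        exact ⟨k + k', hk.mul hk'⟩
      · have hTT : ∀ F ∈ {F | ∃ G ∈ T, ∃ G' ∈ T', F = G * G'}, ∃ k, F.IsHomogeneous k := by
          rintro F ⟨G, hG, G', hG', rfl⟩
          obtain ⟨k, hk⟩ := hT G hG
          obtain ⟨k', hk'⟩ := hT' G' hG'
          exact ⟨k + k', hk.mul hk'⟩
        ext x
        obtain ⟨ω, h, rfl⟩ := exists_cls x
        rw [Set.mem_union, mem_locus_iff hT, mem_locus_iff hT', mem_locus_iff hTT]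
        constructor
        · rintro (H | H) F ⟨G, hG, G', hG', rfl⟩
          · have := H G hG
            unfold evalAt at this ⊢
            rw [map_mul, this, zero_mul]
          · have := H G' hG'
            unfold evalAt at this ⊢
            rw [map_mul, this, mul_zero]
        · intro H
          by_contra hcon
          push Not at hcon
          obtain ⟨⟨G, hG, hG0⟩, G', hG', hG0'⟩ := hcon
          have := H (G * G') ⟨G, hG, G', hG', rfl⟩
          unfold evalAt at this hG0 hG0'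
          rw [map_mul] at this
          exact (mul_ne_zero hG0 hG0') this)

lemma isClosed_iff {d : ℕ} (Z : Set (FolBar d)) : IsClosed Z ↔ IsAlgebraicSet Z := by
  rw [← isOpen_compl_iff]
  change Zᶜᶜ ∈ {Z | IsAlgebraicSet Z} ↔ _
  rw [compl_compl]; rfl

/-- The ideal of polynomials vanishing on the cone over `Z`. -/
noncomputable def coneIdeal {d : ℕ} (Z : Set (FolBar d)) :
    Ideal (MvPolynomial (Fin (Module.finrank ℂ (Forms d))) ℂ) where
  carrier := {F | ∀ (ω : Forms d) (h : ω ≠ 0), cls ω h ∈ Z → evalAt F ω = 0}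
  add_mem' := by
    intro F G hF hG ω h hZ
    have h1 := hF ω h hZ
    have h2 := hG ω h hZ
    unfold evalAt at *
    rw [map_add, h1, h2, add_zero]
  zero_mem' := by
    intro ω h hZ
    unfold evalAt
    rw [map_zero]
  smul_mem' := by
    intro c F hF ω h hZ
    have h1 := hF ω h hZ
    unfold evalAt at *
    rw [smul_eq_mul, map_mul, h1, mul_zero]

lemma mem_coneIdeal {d : ℕ} (Z : Set (FolBar d))
    (F : MvPolynomial (Fin (Module.finrank ℂ (Forms d))) ℂ) :
    F ∈ coneIdeal Z ↔ ∀ (ω : Forms d) (h : ω ≠ 0), cls ω h ∈ Z → evalAt F ω = 0 := Iff.rfl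

lemma coneIdeal_le_imp {d : ℕ} {Z Z' : Set (FolBar d)} (hZ' : IsAlgebraicSet Z')
    (h : coneIdeal Z' ≤ coneIdeal Z) : Z ⊆ Z' := by
  obtain ⟨T, hT, rfl⟩ := hZ'
  intro x hx
  obtain ⟨ω, hω, rfl⟩ := exists_cls x
  rw [mem_locus_iff hT]
  intro F hF
  refine (mem_coneIdeal _ _).1 (h ?_) ω hω hx
  rw [mem_coneIdeal]
  intro η hη hmem
  exact (mem_locus_iff hT η hη).1 hmem F hF

lemma coneIdeal_anti {d : ℕ} {Z Z' : Set (FolBar d)} (h : Z ⊆ Z') :
    coneIdeal Z' ≤ coneIdeal Z := fun _ hF ω hω hx => hF ω hω (h hx)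

instance noeth (d : ℕ) : TopologicalSpace.NoetherianSpace (FolBar d) := by
  have hiff : TopologicalSpace.NoetherianSpace (FolBar d) ↔
      WellFoundedLT (TopologicalSpace.Closeds (FolBar d)) :=
    (TopologicalSpace.noetherianSpace_TFAE (FolBar d)).out 0 1
  refine hiff.2 ?_
  have key : ∀ s t : TopologicalSpace.Closeds (FolBar d), s < t →
      coneIdeal (t : Set (FolBar d)) < coneIdeal (s : Set (FolBar d)) := by
    intro s t hst
    refine lt_of_le_not_ge (coneIdeal_anti hst.le) fun hle => ?_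
    exact hst.not_ge (coneIdeal_le_imp ((isClosed_iff _).1 s.isClosed) hle)
  have wf : WellFounded (fun a b : TopologicalSpace.Closeds (FolBar d) =>
      coneIdeal (a : Set (FolBar d)) > coneIdeal (b : Set (FolBar d))) :=
    InvImage.wf _ (wellFounded_gt)
  exact ⟨Subrelation.wf (fun {a b} hab => key a b hab) wf⟩

/-- The value of the `1`-form `P dy - Q dx` at the point `q ∈ ℂ²` on the tangent vector `u`. -/
noncomputable def formAt (P Q : MvPolynomial (Fin 2) ℂ) (q u : Fin 2 → ℂ) : ℂ :=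
  eval q P * u 1 - eval q Q * u 0

/-- `p` is a center of the foliation `F(P dy - Q dx)`: it is a common zero of `P` and `Q`, it is
reduced, i.e. `(P_x Q_y - P_y Q_x)(p) ≠ 0`, and there are local holomorphic coordinates `(a, b)`
centred at `p` with `ω ∧ d(a² + b²) = 0` near `p` (the wedge product is evaluated on all pairs of
tangent vectors). -/
structure IsCenter (P Q : MvPolynomial (Fin 2) ℂ) (p : Fin 2 → ℂ) : Prop where
  zero_P : eval p P = 0
  zero_Q : eval p Q = 0
  reduced : eval p (pderiv 0 P * pderiv 1 Q - pderiv 1 P * pderiv 0 Q) ≠ 0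
  coords : ∃ a b : (Fin 2 → ℂ) → ℂ, AnalyticAt ℂ a p ∧ AnalyticAt ℂ b p ∧ a p = 0 ∧ b p = 0 ∧
    Function.Bijective (fun u : Fin 2 → ℂ => (fderiv ℂ a p u, fderiv ℂ b p u)) ∧
    ∀ᶠ q in 𝓝 p, ∀ u w : Fin 2 → ℂ,
      formAt P Q q u * fderiv ℂ (fun r => a r ^ 2 + b r ^ 2) q w
       - formAt P Q q w * fderiv ℂ (fun r => a r ^ 2 + b r ^ 2) q u = 0

/-- The foliation `x ∈ FolBar d` has a center. -/
def HasCenter {d : ℕ} (x : FolBar d) : Prop :=
  ∃ (ω : Forms d) (h : ω ≠ 0), cls ω h = x ∧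
    ∃ p, IsCenter (ω.1 : MvPolynomial (Fin 2) ℂ) (ω.2 : MvPolynomial (Fin 2) ℂ) p

/-- The set `F(d)` of foliations of degree `d`: classes of `P dy - Q dx` with `P, Q` coprime and
`max (deg P) (deg Q) = d`. -/
def Fol (d : ℕ) : Set (FolBar d) :=
  {x | ∃ (ω : Forms d) (h : ω ≠ 0), cls ω h = x ∧
    IsRelPrime (ω.1 : MvPolynomial (Fin 2) ℂ) (ω.2 : MvPolynomial (Fin 2) ℂ) ∧
    max (ω.1 : MvPolynomial (Fin 2) ℂ).totalDegree (ω.2 : MvPolynomial (Fin 2) ℂ).totalDegree = d}

/-- `M(d)`: the Zariski closure in `FolBar d` of the set of foliations of degree `d` with at least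
one center. -/
def M (d : ℕ) : Set (FolBar d) := closure {x | x ∈ Fol d ∧ HasCenter x}

/-- `L(d+1)`: the foliations `F(df)`, `f` a polynomial of degree at most `d + 1`; here
`df = f_x dx + f_y dy` is the pair `(P, Q) = (f_y, -f_x)`. -/
def L (d : ℕ) : Set (FolBar d) :=
  {x | ∃ f : MvPolynomial (Fin 2) ℂ, f.totalDegree ≤ d + 1 ∧
    ∃ (ω : Forms d) (h : ω ≠ 0), cls ω h = x ∧
      (ω.1 : MvPolynomial (Fin 2) ℂ) = pderiv 1 f ∧ (ω.2 : MvPolynomial (Fin 2) ℂ) = -pderiv 0 f}


/-- `P ↦ P(p + T (x - p))`, a polynomial in the parameter `T`. -/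
noncomputable def R (p : Fin 2 → ℂ) :
    MvPolynomial (Fin 2) ℂ →ₐ[ℂ] Polynomial (MvPolynomial (Fin 2) ℂ) :=
  aeval (fun i => Polynomial.C (C (p i)) + Polynomial.X * Polynomial.C (X i - C (p i)))

lemma R_C (p : Fin 2 → ℂ) (a : ℂ) : R p (C a) = Polynomial.C (C a) := by
  unfold R
  rw [← MvPolynomial.algebraMap_eq, AlgHom.commutes]
  rfl

lemma R_X (p : Fin 2 → ℂ) (i : Fin 2) :
    R p (X i) = Polynomial.C (C (p i)) + Polynomial.X * Polynomial.C (X i - C (p i)) := by
  unfold R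
  rw [aeval_X]

lemma R_coeff_zero (p : Fin 2 → ℂ) (P : MvPolynomial (Fin 2) ℂ) :
    (R p P).coeff 0 = C (eval p P) := by
  induction P using MvPolynomial.induction_on with
  | C a => rw [R_C]; simp
  | add f g hf hg => simp [hf, hg]
  | mul_X f i hf => 
    rw [map_mul, Polynomial.mul_coeff_zero, hf, R_X]
    simp

lemma R_coeff_one (p : Fin 2 → ℂ) (P : MvPolynomial (Fin 2) ℂ) :
    (R p P).coeff 1 = ∑ i, C (eval p (pderiv i P)) * (X i - C (p i)) := by
  induction P using MvPolynomial.induction_on with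
  | C a => rw [R_C]; simp
  | add f g hf hg => simp [hf, hg, Fin.sum_univ_two]; ring
  | mul_X f i hf => 
    rw [map_mul, Polynomial.coeff_mul, Finset.Nat.antidiagonal_succ]
    simp only [Finset.Nat.antidiagonal_zero, Finset.map_singleton, Finset.sum_cons,
      Finset.sum_singleton, R_coeff_zero, R_X]
    simp only [Function.Embedding.prodMap, Function.Embedding.coeFn_mk, Prod.map,
      Function.Embedding.refl_apply, hf, Nat.succ_eq_add_one, zero_add]
    simp only [Polynomial.coeff_add, Polynomial.coeff_C_zero,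
      Polynomial.mul_coeff_zero, Polynomial.coeff_X_zero, zero_mul, add_zero,
      Polynomial.coeff_X_mul, Derivation.leibniz, pderiv_X, smul_eq_mul, map_add, map_mul, eval_X]
    have h1 : (Polynomial.C (C (p i) : MvPolynomial (Fin 2) ℂ)).coeff 1 = 0 := by
      rw [Polynomial.coeff_C]; simp
    rw [h1]
    fin_cases i <;> simp [Fin.sum_univ_two, Pi.single_apply] <;> ring

lemma R_eval (p q : Fin 2 → ℂ) (t : ℂ) (P : MvPolynomial (Fin 2) ℂ) :
    eval q ((R p P).eval (C t)) = eval (fun i => p i + t * (q i - p i)) P := by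
  induction P using MvPolynomial.induction_on with
  | C a =>
    rw [R_C]; simp
  | add f g hf hg => simp [hf, hg]
  | mul_X f i hf => simp [hf, R_X]

lemma hasDerivAt_eval (p u : Fin 2 → ℂ) (P : MvPolynomial (Fin 2) ℂ) :
    HasDerivAt (fun s : ℂ => eval (p + s • u) P) (∑ i, eval p (pderiv i P) * u i) 0 := by
  have h1 : (fun s : ℂ => eval (p + s • u) P) =
      fun s : ℂ => ((R p P).map (eval (p + u))).eval s := by
    funext s
    have := R_eval p (p + u) s P
    rw [Polynomial.eval_map]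
    have h2 : eval (p + u) ((R p P).eval (C s)) = Polynomial.eval₂ (eval (p + u)) s (R p P) := by
      rw [← Polynomial.eval₂_at_apply, eval_C]
    rw [← h2, this]
    congr 1
    congr 1
    funext i
    simp
  rw [h1]
  have h3 := ((R p P).map (eval (p + u))).hasDerivAt 0
  have h4 : Polynomial.eval 0 (Polynomial.derivative ((R p P).map (eval (p + u)))) =
      ∑ i, eval p (pderiv i P) * u i := by
    rw [← Polynomial.coeff_zero_eq_eval_zero, Polynomial.coeff_derivative, Polynomial.coeff_map,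
      zero_add, R_coeff_one]
    simp
  rwa [h4] at h3

/-- the linear part of the vector field -/
noncomputable def Jv (P Q : MvPolynomial (Fin 2) ℂ) (p u : Fin 2 → ℂ) : Fin 2 → ℂ :=
  ![∑ i, eval p (pderiv i P) * u i, ∑ i, eval p (pderiv i Q) * u i]

lemma fderiv_sq (a b : (Fin 2 → ℂ) → ℂ) (q w : Fin 2 → ℂ) (ha : DifferentiableAt ℂ a q)
    (hb : DifferentiableAt ℂ b q) :
    fderiv ℂ (fun r => a r ^ 2 + b r ^ 2) q w =
      2 * (a q * fderiv ℂ a q w + b q * fderiv ℂ b q w) := by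
  have h : HasFDerivAt (fun r => a r ^ 2 + b r ^ 2)
      ((2 * a q) • fderiv ℂ a q + (2 * b q) • fderiv ℂ b q) q := by
    have h1 := (ha.hasFDerivAt.pow 2).add (hb.hasFDerivAt.pow 2)
    refine h1.congr_fderiv ?_
    ext v
    simp
  rw [h.fderiv]
  simp
  ring

/-- the key identity: `A(u) A(Ju) + B(u) B(Ju) = 0` -/
lemma quad_identity {P Q : MvPolynomial (Fin 2) ℂ} {p : Fin 2 → ℂ} (hP : eval p P = 0)
    (hQ : eval p Q = 0) {a b : (Fin 2 → ℂ) → ℂ} (ha : AnalyticAt ℂ a p) (hb : AnalyticAt ℂ b p)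
    (ha0 : a p = 0) (hb0 : b p = 0)
    (hw : ∀ᶠ q in 𝓝 p, ∀ u w : Fin 2 → ℂ,
      formAt P Q q u * fderiv ℂ (fun r => a r ^ 2 + b r ^ 2) q w
       - formAt P Q q w * fderiv ℂ (fun r => a r ^ 2 + b r ^ 2) q u = 0) (u : Fin 2 → ℂ) :
    fderiv ℂ a p u * fderiv ℂ a p (Jv P Q p u) + fderiv ℂ b p u * fderiv ℂ b p (Jv P Q p u) = 0 := by
  -- the vector field annihilates the function near p
  have h1 : ∀ᶠ q in 𝓝 p, a q * fderiv ℂ a q ![eval q P, eval q Q] +
      b q * fderiv ℂ b q ![eval q P, eval q Q] = 0 := by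
    filter_upwards [hw, ha.eventually_analyticAt, hb.eventually_analyticAt] with q hq haq hbq
    have h2 := hq ![1, 0] ![0, 1]
    rw [fderiv_sq a b q _ haq.differentiableAt hbq.differentiableAt,
      fderiv_sq a b q _ haq.differentiableAt hbq.differentiableAt] at h2
    have hV : (![eval q P, eval q Q] : Fin 2 → ℂ) = eval q P • ![1, 0] + eval q Q • ![0, 1] := by
      ext i; fin_cases i <;> simp
    rw [hV]
    simp only [map_add, map_smul, smul_eq_mul]
    simp only [formAt] at h2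
    simp at h2
    linear_combination (-1 / 2) * h2
  -- restrict to the line through `p` with direction `u`
  have hline : Filter.Tendsto (fun s : ℂ => p + s • u) (𝓝[≠] 0) (𝓝 p) := by
    have : Filter.Tendsto (fun s : ℂ => p + s • u) (𝓝 0) (𝓝 (p + (0 : ℂ) • u)) := by
      apply Continuous.tendsto; fun_prop
    rw [zero_smul, add_zero] at this
    exact this.mono_left nhdsWithin_le_nhds
  have hda : HasDerivAt (fun s : ℂ => a (p + s • u)) (fderiv ℂ a p u) 0 := by
    have h3 : HasFDerivAt a (fderiv ℂ a p) (p + (0 : ℂ) • u) := by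
      rw [zero_smul, add_zero]; exact ha.differentiableAt.hasFDerivAt
    have h4 : HasDerivAt (fun s : ℂ => p + s • u) u 0 := by
      have := ((hasDerivAt_id (0 : ℂ)).smul_const u).const_add p
      simpa using this
    exact h3.comp_hasDerivAt (0 : ℂ) h4
  have hdb : HasDerivAt (fun s : ℂ => b (p + s • u)) (fderiv ℂ b p u) 0 := by
    have h3 : HasFDerivAt b (fderiv ℂ b p) (p + (0 : ℂ) • u) := by
      rw [zero_smul, add_zero]; exact hb.differentiableAt.hasFDerivAt
    have h4 : HasDerivAt (fun s : ℂ => p + s • u) u 0 := by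
      have := ((hasDerivAt_id (0 : ℂ)).smul_const u).const_add p
      simpa using this
    exact h3.comp_hasDerivAt (0 : ℂ) h4
  have hta := hda.tendsto_slope_zero
  have htb := hdb.tendsto_slope_zero
  have htP := (hasDerivAt_eval p u P).tendsto_slope_zero
  have htQ := (hasDerivAt_eval p u Q).tendsto_slope_zero
  simp only [zero_add, zero_smul, add_zero, ha0, hb0, hP, hQ, sub_zero] at hta htb htP htQ
  have htV : Filter.Tendsto (fun s : ℂ => (![s⁻¹ • eval (p + s • u) P, s⁻¹ • eval (p + s • u) Q] :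
      Fin 2 → ℂ)) (𝓝[≠] 0) (𝓝 (Jv P Q p u)) := by
    rw [tendsto_pi_nhds]
    intro i
    fin_cases i
    · exact htP
    · exact htQ
  have hcA : Filter.Tendsto (fun s : ℂ => fderiv ℂ a (p + s • u)) (𝓝[≠] 0) (𝓝 (fderiv ℂ a p)) :=
    ha.fderiv.continuousAt.tendsto.comp hline
  have hcB : Filter.Tendsto (fun s : ℂ => fderiv ℂ b (p + s • u)) (𝓝[≠] 0) (𝓝 (fderiv ℂ b p)) :=
    hb.fderiv.continuousAt.tendsto.comp hline
  have happA := ((isBoundedBilinearMap_apply (𝕜 := ℂ) (E := Fin 2 → ℂ) (F := ℂ)).continuous.tendsto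
    (fderiv ℂ a p, Jv P Q p u)).comp (hcA.prodMk_nhds htV)
  have happB := ((isBoundedBilinearMap_apply (𝕜 := ℂ) (E := Fin 2 → ℂ) (F := ℂ)).continuous.tendsto
    (fderiv ℂ b p, Jv P Q p u)).comp (hcB.prodMk_nhds htV)
  have hlim := (hta.mul happA).add (htb.mul happB)
  refine tendsto_nhds_unique hlim ?_
  refine Filter.Tendsto.congr' ?_ tendsto_const_nhds
  filter_upwards [hline.eventually h1] with s hs
  have hV : (![s⁻¹ • eval (p + s • u) P, s⁻¹ • eval (p + s • u) Q] : Fin 2 → ℂ) =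
      s⁻¹ • ![eval (p + s • u) P, eval (p + s • u) Q] := by
    ext i; fin_cases i <;> simp
  simp only [Function.comp_apply]
  rw [hV, map_smul, map_smul]
  simp only [smul_eq_mul]
  linear_combination (-(s⁻¹ * s⁻¹)) * hs

lemma clm_apply_fin2 (A : (Fin 2 → ℂ) →L[ℂ] ℂ) (u : Fin 2 → ℂ) :
    A u = A ![1, 0] * u 0 + A ![0, 1] * u 1 := by
  have hu : u = u 0 • ![1, 0] + u 1 • ![0, 1] := by
    ext i; fin_cases i <;> simp
  conv_lhs => rw [hu]
  rw [map_add, map_smul, map_smul, smul_eq_mul, smul_eq_mul]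
  ring

lemma trace_zero {P Q : MvPolynomial (Fin 2) ℂ} {p : Fin 2 → ℂ} (h : IsCenter P Q p) :
    eval p (pderiv 0 P) + eval p (pderiv 1 Q) = 0 := by
  obtain ⟨a, b, ha, hb, ha0, hb0, hbij, hw⟩ := h.coords
  have hq := quad_identity h.zero_P h.zero_Q ha hb ha0 hb0 hw
  obtain ⟨u1, hu1⟩ := hbij.2 (1, 0)
  obtain ⟨u2, hu2⟩ := hbij.2 (0, 1)
  simp only [Prod.mk.injEq] at hu1 hu2
  have h1 := hq u1
  have h2 := hq u2
  rw [hu1.1, hu1.2] at h1
  rw [hu2.1, hu2.2] at h2
  have e1 := hu1.1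
  have e2 := hu1.2
  have e3 := hu2.1
  have e4 := hu2.2
  rw [clm_apply_fin2] at e1 e2 e3 e4 h1 h2
  rw [clm_apply_fin2 (fderiv ℂ b p)] at h1 h2
  simp only [Jv, Fin.sum_univ_two, Matrix.cons_val_zero, Matrix.cons_val_one] at h1 h2
  set A0 := fderiv ℂ a p ![1, 0]
  set A1 := fderiv ℂ a p ![0, 1]
  set B0 := fderiv ℂ b p ![1, 0]
  set B1 := fderiv ℂ b p ![0, 1]
  have hM : (!![A0, A1; B0, B1] : Matrix (Fin 2) (Fin 2) ℂ) * !![u1 0, u2 0; u1 1, u2 1] = 1 := by
    rw [Matrix.mul_fin_two, e1, e2, e3, e4, Matrix.one_fin_two]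
  have hM' := mul_eq_one_comm.1 hM
  rw [Matrix.mul_fin_two, Matrix.one_fin_two] at hM'
  have f1 : u1 0 * A0 + u2 0 * B0 = 1 := by simpa using congrFun (congrFun hM' 0) 0
  have f2 : u1 0 * A1 + u2 0 * B1 = 0 := by simpa using congrFun (congrFun hM' 0) 1
  have f3 : u1 1 * A0 + u2 1 * B0 = 0 := by simpa using congrFun (congrFun hM' 1) 0
  have f4 : u1 1 * A1 + u2 1 * B1 = 1 := by simpa using congrFun (congrFun hM' 1) 1
  linear_combination h1 + h2 - (eval p (pderiv 0 P)) * f1 - (eval p (pderiv 1 P)) * f3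
    - (eval p (pderiv 0 Q)) * f2 - (eval p (pderiv 1 Q)) * f4


end Pool.Agent.CF
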